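import Pool.Agent.H84.NT.Targets3

/-!
# Module CUA (MP_57ddd5_pr): crude upper bound at the large scale
-/

open MeasureTheory ProbabilityTheory
open scoped ENNReal

namespace Pool.Agent.H21.NT

open Pool.Agent.H99.NS Pool.Agent.H22.LPP Pool.Agent.H95.INS Pool.Agent.H84.NT

theorem titu {a b x y : ℝ} (ha : 0 < a) (hb : 0 < b) :
    (x + y) ^ 2 / (a + b) ≤ x ^ 2 / a + y ^ 2 / b := by
  rw [div_add_div _ _ ha.ne' hb.ne', div_le_div_iff₀ (by positivity) (by positivity)]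
  nlinarith [sq_nonneg (x * b - y * a)]

/-- The numerical inequality. -/
theorem num3 {s d τ1 τm τ2 x1 xm x2 P Q : ℝ} (hs : 0 ≤ s) (hd : 0 < d) (h1 : 0 ≤ τ1)
    (hm : 0 ≤ τm) (h2 : 0 ≤ τ2) (hP : |x1 + xm + x2| ≤ 32 * P) (hQ : |xm| ≤ 2 * Q) :
    -(s / 2 * x1 ^ 2 / (τ1 + d)) - s / 2 * x2 ^ 2 / (τ2 + d) ≤
      -(s / 2 * (x1 + xm + x2) ^ 2 / (τ1 + τm + τ2 + 4 * d)) + s / 2 * (128 * P * Q) / (2 * d) := by
  set x := x1 + xm + x2 with hx
  have e1 : (x1 + x2) ^ 2 / (τ1 + d + (τ2 + d)) ≤ x1 ^ 2 / (τ1 + d) + x2 ^ 2 / (τ2 + d) :=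
    titu (by linarith) (by linarith)
  have e2 : (x1 + x2) ^ 2 / (τ1 + τm + τ2 + 2 * d) ≤ (x1 + x2) ^ 2 / (τ1 + d + (τ2 + d)) := by
    apply div_le_div_of_nonneg_left (sq_nonneg _) (by linarith) (by linarith)
  have hP0 : 0 ≤ P := by
    have := abs_nonneg x
    linarith
  have hQ0 : 0 ≤ Q := by
    have := abs_nonneg xm
    linarith
  have e3 : x ^ 2 - 128 * P * Q ≤ (x1 + x2) ^ 2 := by
    have h3 : x1 + x2 = x - xm := by rw [hx]; ring
    rw [h3]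
    have h4 : x * xm ≤ 32 * P * (2 * Q) := by
      calc x * xm ≤ |x * xm| := le_abs_self _
        _ = |x| * |xm| := abs_mul _ _
        _ ≤ 32 * P * (2 * Q) := mul_le_mul hP hQ (abs_nonneg _) (by linarith)
    nlinarith [sq_nonneg xm]
  have e4 : (x ^ 2 - 128 * P * Q) / (τ1 + τm + τ2 + 2 * d) ≤
      (x1 + x2) ^ 2 / (τ1 + τm + τ2 + 2 * d) :=
    div_le_div_of_nonneg_right e3 (by linarith)
  have e5 : x ^ 2 / (τ1 + τm + τ2 + 4 * d) ≤ x ^ 2 / (τ1 + τm + τ2 + 2 * d) :=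
    div_le_div_of_nonneg_left (sq_nonneg _) (by linarith) (by linarith)
  have e6 : 128 * P * Q / (τ1 + τm + τ2 + 2 * d) ≤ 128 * P * Q / (2 * d) :=
    div_le_div_of_nonneg_left (by positivity) (by linarith) (by linarith)
  have e7 : x ^ 2 / (τ1 + τm + τ2 + 4 * d) - 128 * P * Q / (2 * d) ≤
      x1 ^ 2 / (τ1 + d) + x2 ^ 2 / (τ2 + d) := by
    rw [sub_div] at e4
    linarith
  have e8 := mul_le_mul_of_nonneg_left e7 (by linarith : (0:ℝ) ≤ s / 2)
  have e9 : s / 2 * (x ^ 2 / (τ1 + τm + τ2 + 4 * d) - 128 * P * Q / (2 * d)) =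
      s / 2 * x ^ 2 / (τ1 + τm + τ2 + 4 * d) - s / 2 * (128 * P * Q) / (2 * d) := by ring
  have e10 : s / 2 * (x1 ^ 2 / (τ1 + d) + x2 ^ 2 / (τ2 + d)) =
      s / 2 * x1 ^ 2 / (τ1 + d) + s / 2 * x2 ^ 2 / (τ2 + d) := by ring
  rw [e9, e10] at e8
  linarith

theorem sg_nonneg {q : ℝ} (h1 : q < 1) : 0 ≤ sg q := by
  unfold sg
  exact div_nonneg (Real.sqrt_nonneg _) (by linarith)

/-- `max |x| |y| / w ≤ 16 A` for positions of the wide strip. -/
theorem max_div_le {x y : ℤ} {V : ℝ} {w : ℤ} (hw : 1 ≤ w) (hx : |(x : ℝ)| ≤ V * w)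
    (hy : |(y : ℝ)| ≤ V * w) : max |(x : ℝ)| |(y : ℝ)| / w ≤ V := by
  have : (0 : ℝ) < w := by exact_mod_cast hw
  rw [div_le_iff₀ this]
  exact max_le hx hy

theorem stay_real {D : Dat} {s t r : ℤ} {g : ℤ → ℤ} (h : Stay (16 * D.A * D.w) s t g)
    (h1 : s ≤ r) (h2 : r ≤ t) : |(g r : ℝ)| ≤ 16 * (D.A : ℝ) * D.w := by
  have := h r h1 h2
  have h3 : ((|g r| : ℤ) : ℝ) ≤ ((16 * D.A * D.w : ℤ) : ℝ) := by exact_mod_cast this.le
  push_cast at h3
  exact h3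

theorem o1s_stay {Da : Dat} (hDa : Da.Ok) {ω : Env} (hO : O1S Da ω) {s t : ℤ} {g : ℤ → ℤ}
    {s' t' : ℤ} (h1 : -(4 * Da.n) ≤ s) (h2 : s ≤ s') (h3 : s' ≤ t') (h4 : t' ≤ t)
    (h5 : t ≤ 4 * Da.n) (hp : IsPath s t g) (hst : Stay (16 * Da.A * Da.w) s t g) :
    wt ω s' t' g ≤ sp Da.q (8 * Da.n / 200) s' t' g + Da.K * (1 + 16 * Da.A) * Da.f := by
  have hn := hDa.n1
  have hX := hDa.X1
  have e1 := hO s' t' g (by omega) h3 (by omega) (fun r hr1 hr2 => hp r (by omega) (by omega))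
    ((hst s' h2 (by omega)).le.trans hX) ((hst t' (by omega) h4).le.trans hX)
  have e2 : max |(g s' : ℝ)| |(g t' : ℝ)| / Da.w ≤ 16 * Da.A :=
    max_div_le hDa.w1 (stay_real hst h2 (by omega)) (stay_real hst (by omega) h4)
  have e3 : Da.K * Da.f * (1 + max |(g s' : ℝ)| |(g t' : ℝ)| / Da.w) ≤
      Da.K * Da.f * (1 + 16 * Da.A) := by
    apply mul_le_mul_of_nonneg_left _ (mul_nonneg hDa.K0 hDa.f0.le)
    linarith
  nlinarith

theorem pf_CUA : T_CUA := by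
  intro D Da z ω ω' hR hag hcla hO s t g hs hst ht hp hstay
  have hD := hR.okD
  have hDa := hR.okA
  have hq : Da.q = D.q := hR.qq
  have hsg : 0 ≤ sg Da.q := sg_nonneg hDa.q1
  have hn : (1 : ℝ) ≤ Da.n := by exact_mod_cast hDa.n1
  have hw : (1 : ℝ) ≤ Da.w := by exact_mod_cast hDa.w1
  have hA : (2 : ℝ) ≤ Da.A := by exact_mod_cast hDa.A2
  have hf := hDa.f0
  have hK := hDa.K0
  have c2 := hDa.c2
  have c3 := hDa.c3
  have hKA : 0 ≤ Da.K * (1 + 16 * Da.A) := mul_nonneg hK (by linarith)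
  have hH : 0 ≤ Da.H := by linarith
  -- agreement of the weights
  have hagr : ∀ a b : ℤ, (∀ r, a < r → r ≤ b → (r + z.1, g r + z.2) ∉ Bx D) →
      wt (shiftE z ω) a b g = wt (shiftE z ω') a b g := by
    intro a b h
    apply wt_congr
    intro r h1 h2
    unfold shiftE
    exact hag _ (h r h1 h2)
  by_cases hin : ∃ r, s < r ∧ r ≤ t ∧ (r + z.1, g r + z.2) ∈ Bx D
  · classical
    -- first and last visit
    let S := (Finset.Ioc s t).filter (fun r => (r + z.1, g r + z.2) ∈ Bx D)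
    have hS : S.Nonempty := by
      obtain ⟨r, h1, h2, h3⟩ := hin
      exact ⟨r, by simp only [S, Finset.mem_filter, Finset.mem_Ioc]; exact ⟨⟨h1, h2⟩, h3⟩⟩
    obtain ⟨s1, hs1⟩ : ∃ s1, s1 = S.min' hS := ⟨_, rfl⟩
    obtain ⟨t1, ht1⟩ : ∃ t1, t1 = S.max' hS := ⟨_, rfl⟩
    have hs1m : s1 ∈ S := hs1 ▸ S.min'_mem hS
    have ht1m : t1 ∈ S := ht1 ▸ S.max'_mem hS
    have hs1l : s1 ≤ t1 := by rw [hs1]; exact S.min'_le _ ht1m
    have hfirst : ∀ r, s < r → r < s1 → (r + z.1, g r + z.2) ∉ Bx D := by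
      intro r h1 h2 h3
      have : r ∈ S := by
        have h4 := hs1m
        simp only [S, Finset.mem_filter, Finset.mem_Ioc] at h4 ⊢
        exact ⟨⟨h1, by omega⟩, h3⟩
      have := S.min'_le _ this
      omega
    have hlast : ∀ r, t1 < r → r ≤ t → (r + z.1, g r + z.2) ∉ Bx D := by
      intro r h1 h2 h3
      have : r ∈ S := by
        have h4 := ht1m
        simp only [S, Finset.mem_filter, Finset.mem_Ioc] at h4 ⊢
        exact ⟨⟨by omega, h2⟩, h3⟩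
      have := S.le_max' _ this
      omega
    simp only [S, Finset.mem_filter, Finset.mem_Ioc] at hs1m ht1m
    obtain ⟨⟨a1, a2⟩, a3, a4, a5⟩ := hs1m
    obtain ⟨⟨b1, b2⟩, b3, b4, b5⟩ := ht1m
    simp only at a3 a4 a5 b3 b4 b5
    -- weights
    have hsplit : wt (shiftE z ω) s t g = wt (shiftE z ω) s (s1 - 1) g +
        (wt (shiftE z ω) (s1 - 1) t1 g + wt (shiftE z ω) t1 t g) := by
      rw [wt_add _ (show s ≤ s1 - 1 by omega) (show s1 - 1 ≤ t by omega),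
        wt_add _ (show s1 - 1 ≤ t1 by omega) b2]
    have o1 : wt (shiftE z ω) s (s1 - 1) g ≤ sp Da.q (8 * Da.n / 200) s (s1 - 1) g +
        Da.K * (1 + 16 * Da.A) * Da.f := by
      rw [hagr s (s1 - 1) (fun r h1 h2 => hfirst r h1 (by omega))]
      exact o1s_stay hDa hO hs le_rfl (by omega) (by omega) ht hp hstay
    have o2 : wt (shiftE z ω) t1 t g ≤ sp Da.q (8 * Da.n / 200) t1 t g +
        Da.K * (1 + 16 * Da.A) * Da.f := by
      rw [hagr t1 t hlast]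
      exact o1s_stay hDa hO hs (by omega) b2 le_rfl ht hp hstay
    -- position at `s1 - 1`
    have hstep := hp (s1 - 1) (by omega) (by omega)
    rw [show s1 - 1 + 1 = s1 by ring] at hstep
    have hpos : |g (s1 - 1) + z.2| ≤ D.A * D.w := by
      rw [abs_lt] at a5
      rw [abs_le]
      constructor <;> omega
    have hm := hcla (s1 - 1 + z.1) (t1 + z.1) (fun r => g (r - z.1) + z.2) (by omega) (by omega)
      b4 (by
        intro r h1 h2
        have := hp (r - z.1) (by omega) (by omega)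
        rw [show r - z.1 + 1 = r + 1 - z.1 by ring] at this
        simp only
        omega) (by
        rw [show s1 - 1 + z.1 - z.1 = s1 - 1 by ring]
        exact hpos) (by
        rw [show t1 + z.1 - z.1 = t1 by ring]
        exact b5.le)
    rw [← wt_shift] at hm
    -- real numbers
    have hP : |((g (s1 - 1) : ℝ) - g s) + ((g t1 : ℝ) - g (s1 - 1)) + ((g t : ℝ) - g t1)| ≤
        32 * ((Da.A : ℝ) * Da.w) := by
      have h1 := stay_real hstay le_rfl hst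
      have h2 := stay_real hstay hst le_rfl
      rw [abs_le] at *
      constructor <;> linarith [h1.1, h1.2, h2.1, h2.2]
    have hQ : |(g t1 : ℝ) - g (s1 - 1)| ≤ 2 * ((D.A : ℝ) * D.w) := by
      have h1 : ((|g (s1 - 1) + z.2| : ℤ) : ℝ) ≤ ((D.A * D.w : ℤ) : ℝ) := by exact_mod_cast hpos
      have h2 : ((|g t1 + z.2| : ℤ) : ℝ) ≤ ((D.A * D.w : ℤ) : ℝ) := by exact_mod_cast b5.le
      push_cast at h1 h2
      rw [abs_le] at *
      constructor <;> linarith [h1.1, h1.2, h2.1, h2.2]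
    have hnum := num3 (s := sg Da.q) (d := 8 * Da.n / 200) (τ1 := ((s1 - 1 - s : ℤ) : ℝ))
      (τm := ((t1 - (s1 - 1) : ℤ) : ℝ)) (τ2 := ((t - t1 : ℤ) : ℝ)) hsg (by positivity)
      (by exact_mod_cast (by omega : 0 ≤ s1 - 1 - s))
      (by exact_mod_cast (by omega : 0 ≤ t1 - (s1 - 1)))
      (by exact_mod_cast (by omega : 0 ≤ t - t1)) hP hQ
    -- the error term
    have hsc := hDa.sc
    have hsep : 6400 * (D.A : ℝ) * D.w ≤ Da.w := by exact_mod_cast hR.sep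
    have herr : sg Da.q / 2 * (128 * ((Da.A : ℝ) * Da.w) * ((D.A : ℝ) * D.w)) /
        (2 * (8 * Da.n / 200)) ≤ sg Da.q * Da.A * Da.f := by
      rw [div_le_iff₀ (by positivity)]
      have h1 : (Da.w : ℝ) * (6400 * (D.A : ℝ) * D.w) ≤ 8 * Da.n * Da.f := by
        rw [← hsc, sq]
        exact mul_le_mul_of_nonneg_left hsep (by linarith)
      have h2 : 0 ≤ sg Da.q * Da.A / 100 := by positivity
      have h3 := mul_le_mul_of_nonneg_left h1 h2
      calc sg Da.q / 2 * (128 * ((Da.A : ℝ) * Da.w) * ((D.A : ℝ) * D.w))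
          = sg Da.q * Da.A / 100 * ((Da.w : ℝ) * (6400 * (D.A : ℝ) * D.w)) := by ring
        _ ≤ sg Da.q * Da.A / 100 * (8 * Da.n * Da.f) := h3
        _ = sg Da.q * Da.A * Da.f * (2 * (8 * Da.n / 200)) := by ring
    have hka : sg Da.q * Da.A ≤ Da.K * (1 + 16 * Da.A) := by
      have h1 := hR.ka
      rw [← hq] at h1
      nlinarith
    have hyh := hR.yh
    have h4 : Da.K * (1 + 16 * Da.A) * Da.f ≤ Da.H / 1000 * Da.f :=
      mul_le_mul_of_nonneg_right c2 hf.le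
    have h5 : sg Da.q * Da.A * Da.f ≤ Da.K * (1 + 16 * Da.A) * Da.f :=
      mul_le_mul_of_nonneg_right hka hf.le
    have h6 : Da.H * Da.f ≤ Da.Y * Da.f := mul_le_mul_of_nonneg_right c3 hf.le
    have h7 : 0 ≤ Da.H * Da.f := mul_nonneg hH hf.le
    -- conclusion
    unfold sp at o1 o2 ⊢
    have e1 : ((g (s1 - 1) - g s : ℤ) : ℝ) = (g (s1 - 1) : ℝ) - g s := by push_cast; ring
    have e2 : ((g t - g t1 : ℤ) : ℝ) = (g t : ℝ) - g t1 := by push_cast; ring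
    have e3 : ((g t - g s : ℤ) : ℝ) = ((g (s1 - 1) : ℝ) - g s) + ((g t1 : ℝ) - g (s1 - 1)) +
        ((g t : ℝ) - g t1) := by push_cast; ring
    have e4 : ((t - s : ℤ) : ℝ) = ((s1 - 1 - s : ℤ) : ℝ) + ((t1 - (s1 - 1) : ℤ) : ℝ) +
        ((t - t1 : ℤ) : ℝ) := by push_cast; ring
    have e5 : ((t1 + z.1 - (s1 - 1 + z.1) : ℤ) : ℝ) = ((t1 - (s1 - 1) : ℤ) : ℝ) := by
      push_cast; ring
    rw [e1] at o1
    rw [e2] at o2
    rw [e5, ← hq] at hm
    rw [e3, hsplit]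
    have e6 : (8 : ℝ) * Da.n / 50 = 4 * (8 * Da.n / 200) := by ring
    rw [e6]
    have e7 : mu Da.q * ((t - s : ℤ) : ℝ) = mu Da.q * ((s1 - 1 - s : ℤ) : ℝ) +
        mu Da.q * ((t1 - (s1 - 1) : ℤ) : ℝ) + mu Da.q * ((t - t1 : ℤ) : ℝ) := by
      rw [e4]; ring
    rw [e7, e4]
    linarith
  · push Not at hin
    rw [hagr s t hin]
    have h1 := o1s_stay hDa hO hs le_rfl hst le_rfl ht hp hstay
    have h2 : Da.K * (1 + 16 * Da.A) * Da.f ≤ Da.H / 1000 * Da.f :=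
      mul_le_mul_of_nonneg_right c2 hf.le
    have h3 : Da.H * Da.f ≤ Da.Y * Da.f := mul_le_mul_of_nonneg_right c3 hf.le
    have h4 : 0 ≤ Da.H * Da.f := mul_nonneg hH hf.le
    have h5 : sp Da.q (8 * Da.n / 200) s t g ≤ sp Da.q (8 * Da.n / 50) s t g := by
      unfold sp
      have h6 : (0 : ℝ) ≤ ((t - s : ℤ) : ℝ) := by exact_mod_cast (by omega : 0 ≤ t - s)
      have h7 : sg Da.q / 2 * ((g t - g s : ℤ) : ℝ) ^ 2 / (((t - s : ℤ) : ℝ) + 8 * Da.n / 50) ≤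
          sg Da.q / 2 * ((g t - g s : ℤ) : ℝ) ^ 2 / (((t - s : ℤ) : ℝ) + 8 * Da.n / 200) := by
        apply div_le_div_of_nonneg_left (by positivity) (by positivity)
        linarith
      linarith
    linarith

end Pool.Agent.H21.NT
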