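import Pool.Agent.H84.NT.Targets3

/-!
# Module CUT (MP_57ddd5_pr): facts on the cut environment
-/

open MeasureTheory ProbabilityTheory
open scoped ENNReal

namespace Pool.Agent.H21.NT

open Pool.Agent.H99.NS Pool.Agent.H22.LPP Pool.Agent.H95.INS Pool.Agent.H84.NT

theorem cutS_le (D : Dat) (ω : Env) : cutS D ω ≤ ω := by
  intro z
  unfold cutS
  split_ifs
  · exact Nat.zero_le _
  · exact le_rfl

theorem wt_cutS_le (D : Dat) (ω : Env) (s t : ℤ) (g : ℤ → ℤ) :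
    wt (cutS D ω) s t g ≤ wt ω s t g := by
  unfold wt
  refine Finset.sum_le_sum fun r _ => ?_
  exact_mod_cast cutS_le D ω (r, g r)

theorem T_cutS_le (D : Dat) (ω : Env) (u v : Site) : T (cutS D ω) u v ≤ T ω u v :=
  T_mono fun x _ => cutS_le D ω x

theorem wt_cutS (D : Dat) (ω : Env) (s t : ℤ) (g : ℤ → ℤ)
    (h : ∀ r, s < r → r ≤ t → -(256 * D.n) < r → r ≤ 256 * D.n → |g r| < 2 * D.X) :
    wt (cutS D ω) s t g = wt ω s t g := by
  apply wt_congr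
  intro r h1 h2
  unfold cutS
  rw [if_neg]
  rintro ⟨h3, h4, h5⟩
  have := h r h1 h2 h3 h4
  simp only at h5
  omega

theorem lt_2X {D : Dat} (hD : D.Ok) : 16 * D.A * D.w < 2 * D.X := by
  have h1 := hD.X1
  have h2 := hD.A2
  have h3 := hD.w1
  have h4 : 0 < 16 * D.A * D.w := by positivity
  omega

theorem half_lt_2X {D : Dat} (hD : D.Ok) : D.A / 2 * D.w < 2 * D.X := by
  have h1 := hD.X1
  have h2 := hD.A2
  have h3 := hD.w1
  have h4 : 0 < D.A * D.w := by positivity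
  have h5 : D.A / 2 * D.w ≤ D.A * D.w := by
    apply mul_le_mul_of_nonneg_right _ (by omega)
    omega
  have h6 : 16 * D.A * D.w = 16 * (D.A * D.w) := by ring
  omega

theorem wt_cutS_stay {D : Dat} {ω : Env} {s t : ℤ} {g : ℤ → ℤ} {V : ℤ} (hV : V < 2 * D.X)
    (h : Stay V s t g) : wt (cutS D ω) s t g = wt ω s t g := by
  apply wt_cutS
  intro r h1 h2 _ _
  have := h r h1.le h2
  omega

theorem exc_cutS {D : Dat} {ω : Env} {s t : ℤ} {g : ℤ → ℤ} {V : ℤ} (hV : V < 2 * D.X)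
    (h : Stay V s t g) (q : ℝ) : Exc q (cutS D ω) s t g = Exc q ω s t g := by
  unfold Exc
  rw [wt_cutS_stay hV h]

theorem ub_cutS {D : Dat} (hD : D.Ok) {ω : Env} {s t : ℤ} {c : ℝ} (h : UB D ω s t c) :
    UB D (cutS D ω) s t c := by
  intro g h1 h2
  rw [exc_cutS (lt_2X hD) h2]
  exact h g h1 h2

theorem nd_cutS {D : Dat} (hD : D.Ok) {ω : Env} {s t : ℤ} {c : ℝ} (h : ND D ω s t c) :
    ND D (cutS D ω) s t c := by
  intro g g' h1 h2 h3 h4 h5 h6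
  rw [exc_cutS (lt_2X hD) h3] at h5
  rw [exc_cutS (lt_2X hD) h4] at h6
  exact h g g' h1 h2 h3 h4 h5 h6

theorem cu_cutS {D : Dat} (hD : D.Ok) {ω : Env} (h : CU D ω) : CU D (cutS D ω) := by
  intro s t g h1 h2 h3 h4 h5
  rw [wt_cutS_stay (lt_2X hD) h5]
  exact h s t g h1 h2 h3 h4 h5

theorem hws_cutS {D : Dat} (hD : D.Ok) {ω : Env} {s t : ℤ} {c : ℝ} (h : HWs D ω s t c) :
    HWs D (cutS D ω) s t c := by
  obtain ⟨g, h1, h2⟩ := h
  refine ⟨g, h1, ?_⟩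
  rw [exc_cutS (half_lt_2X hD) h1.2.1]
  exact h2

theorem cn_cutS {D : Dat} (hD : D.Ok) {ω : Env} {s t x y : ℤ} (h : CN D ω s t x y) :
    CN D (cutS D ω) s t x y := by
  obtain ⟨g, h1, h2, h3, h4, h5⟩ := h
  refine ⟨g, h1, h2, h3, h4, ?_⟩
  rw [exc_cutS (half_lt_2X hD) h4]
  exact h5

theorem ev_cutS {D : Dat} (hD : D.Ok) {ω : Env} (h : Ev D ω) : Ev D (cutS D ω) where
  u1 := ub_cutS hD h.u1
  u2 := ub_cutS hD h.u2
  sm := ⟨ub_cutS hD h.sm.s1, ub_cutS hD h.sm.s2, ub_cutS hD h.sm.s3⟩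
  d1 := nd_cutS hD h.d1
  d2 := nd_cutS hD h.d2
  cu := cu_cutS hD h.cu
  h1 := hws_cutS hD h.h1
  h2 := hws_cutS hD h.h2
  lo := ⟨fun y h1 h2 => cn_cutS hD (h.lo.l1 y h1 h2),
    fun y y' h1 h2 h3 h4 => cn_cutS hD (h.lo.l2 y y' h1 h2 h3 h4),
    fun y h1 h2 => cn_cutS hD (h.lo.l3 y h1 h2)⟩

theorem wt_cutS_inT {D : Dat} {ω : Env} {s t : ℤ} {g : ℤ → ℤ} (h : InT D (2 * D.X) g) :
    wt (cutS D ω) s t g = wt ω s t g :=
  wt_cutS D ω s t g fun r _ _ h3 h4 => h r h3.le h4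

theorem pf_CUT : T_CUT := by
  intro D ω ω' hD
  refine ⟨cutS_le D ω, T_cutS_le D ω, wt_cutS_le D ω, wt_cutS D ω, ?_, ev_cutS hD, ?_, ?_⟩
  · intro h x hx
    unfold cutS
    split_ifs
    · rfl
    · exact h x hx
  · intro o e c g h1 h2
    refine ⟨h2.1, ?_⟩
    rw [wt_cutS_inT h1]
    have := T_cutS_le D ω o e
    linarith [h2.2]
  · intro o e g h1 h2 h3 h4
    apply le_antisymm (T_cutS_le D ω o e)
    rw [← h4, ← wt_cutS_inT (D := D) h1]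
    exact le_T _ (reach_le h3) h2

end Pool.Agent.H21.NT
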