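import Pool.Agent.H84.NT.Targets3

/-!
# Module TUB (MP_57ddd5_pr): near optimal paths of the new environment stay in the tube
-/

open MeasureTheory ProbabilityTheory
open scoped ENNReal

namespace Pool.Agent.H21.NT

open Pool.Agent.H99.NS Pool.Agent.H22.LPP Pool.Agent.H95.INS Pool.Agent.H84.NT

theorem sg_pos' {q : ℝ} (h0 : 0 < q) (h1 : q < 1) : 0 < sg q := by
  unfold sg
  exact div_pos (Real.sqrt_pos.2 h0) (by linarith)

theorem H_pos {D : Dat} (hD : D.Ok) : 0 < D.H := by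
  have h1 := hD.c1
  have h2 := sg_pos' hD.q0 hD.q1
  have h3 := hD.K0
  have h4 := hD.B0
  have h5 : 0 ≤ 3 * D.K * (1 + D.B) := by positivity
  have h6 : 0 ≤ sg D.q * D.B ^ 2 := by positivity
  linarith

/-- The shifted path. -/
def shp (z : Site) (g : ℤ → ℤ) : ℤ → ℤ := fun r => g (r + z.1) - z.2

theorem conn_shp {o e z : Site} {g : ℤ → ℤ} (h : Conn o e g) : Conn (o - z) (e - z) (shp z g) := by
  have h1 := conn_shift (-z) h
  have h2 : (fun r => g (r - (-z).1) + (-z).2) = shp z g := by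
    funext r
    unfold shp
    simp only [Prod.fst_neg, Prod.snd_neg, sub_neg_eq_add]
    ring
  rw [h2] at h1
  rw [sub_eq_add_neg, sub_eq_add_neg]
  exact h1

theorem wt_shp (ω : Env) (o e z : Site) (g : ℤ → ℤ) :
    wt (shiftE z ω) (o - z).1 (e - z).1 (shp z g) = wt ω o.1 e.1 g := by
  rw [wt_shift]
  have h2 : (fun r => shp z g (r - z.1) + z.2) = g := by
    funext r
    unfold shp
    rw [sub_add_cancel, sub_add_cancel]
  rw [h2, Prod.fst_sub, Prod.fst_sub, sub_add_cancel, sub_add_cancel]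

theorem T_shp (ω : Env) (o e z : Site) : T (shiftE z ω) (o - z) (e - z) = T ω o e := by
  rw [T_shift, sub_add_cancel, sub_add_cancel]

theorem near_shp {ω : Env} {o e z : Site} {c c' : ℝ} {g : ℤ → ℤ} (h : Near ω o e c g)
    (hc : c ≤ c') : Near (shiftE z ω) (o - z) (e - z) c' (shp z g) := by
  refine ⟨conn_shp h.1, ?_⟩
  rw [wt_shp, T_shp]
  linarith [h.2]

theorem agree_shift {D Da : Dat} {z : Site} (hR : Rel D Da z) {ω ω' : Env} (h : Agree D ω ω') :
    Agree Da (shiftE z ω) (shiftE z ω') := by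
  intro x hx
  unfold shiftE
  apply h
  intro hx'
  apply hx
  obtain ⟨h1, h2, h3⟩ := hx'
  simp only [Prod.fst_add, Prod.snd_add] at h1 h2 h3
  have hn := hR.okD.n1
  have t1 := hR.t1
  have t2 := hR.t2
  have hl := hR.lat
  refine ⟨by omega, by omega, ?_⟩
  have h4 : |x.2| ≤ |x.2 + z.2| + |z.2| := by
    have := abs_sub_abs_le_abs_sub x.2 (-z.2)
    rw [abs_neg, sub_neg_eq_add] at this
    omega
  omega

theorem o1_of_o1s {D : Dat} (hD : D.Ok) {ω : Env} (h : O1S D ω) : O1 D ω := by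
  intro s t g h1 h2 h3 h4 h5 h6
  refine (h s t g h1 h2 h3 h4 h5 h6).trans ?_
  have hn : (1 : ℝ) ≤ D.n := by exact_mod_cast hD.n1
  have h7 : (0 : ℝ) ≤ ((t - s : ℤ) : ℝ) := by exact_mod_cast (by omega : 0 ≤ t - s)
  have h8 := (sg_pos' hD.q0 hD.q1).le
  have h9 : sg D.q / 2 * ((g t - g s : ℤ) : ℝ) ^ 2 / (((t - s : ℤ) : ℝ) + 8 * D.n / 50) ≤
      sg D.q / 2 * ((g t - g s : ℤ) : ℝ) ^ 2 / (((t - s : ℤ) : ℝ) + 8 * D.n / 200) := by
    apply div_le_div_of_nonneg_left (by positivity) (by positivity)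
    linarith
  unfold sp
  linarith

theorem pf_TUB (h_CUT : T_CUT) (h_EXC : T_EXC) (h_CLA : T_CLA) (h_CUA : T_CUA) (h_S1 : T_S1)
    (h_INN : T_INN) (h_AVO : T_AVO) (h_S3 : T_S3) (h_LAM : B_LAM) : T_TUB := by
  intro D Da z ω ω' o e L
  have hR := L.rel
  have hD := hR.okD
  have hDa := hR.okA
  have hre := L.en.re
  have hH := H_pos hD
  have hf := hD.f0
  have hHf : 0 < D.H * D.f := mul_pos hH hf
  have hHa := H_pos hDa
  have hfa := hDa.f0
  have hHfa : 0 < Da.H * Da.f := mul_pos hHa hfa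
  obtain ⟨c1, c2, c3, c4, c5, c6, c7, c8⟩ := h_CUT D ω ω' hD
  obtain ⟨-, -, -, -, -, -, c7', c8'⟩ := h_CUT D ω' ω hD
  obtain ⟨⟨hG1, hG2⟩, -⟩ := h_LAM ω' o e hre
  have hnear : Near ω' o e (D.H * D.f / 1000) (Lam ω' o e) := ⟨hG1, by linarith⟩
  have htt : T (cutS D ω') o e = T ω' o e := c8' o e _ L.tu hG1 hre hG2
  -- large scale bound
  have hexc : EXC D ω' := h_EXC D Da z ω' hR L.a1
  have hcla := h_CLA D ω ω' hD L.ag L.ev L.o1 hexc
  have hcu : CU Da (shiftE z ω) := h_CUA D Da z ω ω' hR L.ag hcla L.a1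
  -- the field `up`
  have hup : T ω' o e + (1993 / 1000) * D.H * D.f ≤ T ω o e := by
    obtain ⟨m, m1, m2, m3, -, m5⟩ := h_INN D (cutS D ω) hD (c6 L.ev)
    obtain ⟨g0, g1, -, -, -, g5⟩ := h_S1 D (cutS D ω) (cutS D ω') o e hD (c5 L.ag) L.en L.o1 L.o2
      (Lam ω' o e) ⟨c7' o e _ _ L.tu hnear, L.l1, L.l2⟩ m m1 m2 m3 m5
    rw [htt] at g5
    have g6 := c3 o.1 e.1 g0
    have g7 := le_T ω (reach_le hre) g1
    linarith
  -- the field `st`
  have hst : ∀ g, Near ω o e (14 * D.H * D.f / 1000) g → InT D D.X g := by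
    intro g hg
    have hlt : T ω' o e < wt ω o.1 e.1 g := by
      have := hg.2
      nlinarith
    obtain ⟨r, r1, r2, r3⟩ := h_AVO D ω ω' o e L.ag hre g hg.1 hlt
    have hle : 14 * D.H * D.f / 1000 ≤ 14 * Da.H * Da.f / 1000 := by
      have h1 := hR.yh
      have h2 := mul_le_mul_of_nonneg_right hD.c3 hf.le
      have h3 : 4 * D.Y * D.f = 4 * (D.Y * D.f) := by ring
      rw [h3] at h1
      nlinarith
    have hnearA := near_shp (z := z) hg hle
    have hn := hD.n1
    have t1 := hR.t1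
    have t2 := hR.t2
    have hl := hR.lat
    have htouch : ∃ r, -(4 * Da.n) ≤ r ∧ r ≤ 4 * Da.n ∧ |shp z g r| < Da.A * Da.w := by
      refine ⟨r - z.1, by omega, by omega, ?_⟩
      unfold shp
      rw [sub_add_cancel]
      have := abs_sub (g r) z.2
      omega
    obtain ⟨p1, p2⟩ := L.rr (shp z g) hnearA htouch
    have hO3 : O3 Da (shiftE z ω') (o - z) (e - z) (shp z (Lam ω' o e)) := by
      refine ⟨near_shp (c := 0) ⟨hG1, by linarith⟩ (by positivity), ?_, ?_⟩
      · have h1 := L.g1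
        unfold shp
        rw [show -(256 * Da.n) + z.1 = z.1 - 256 * Da.n by ring]
        exact h1
      · have h1 := L.g2
        unfold shp
        rw [show 256 * Da.n + z.1 = z.1 + 256 * Da.n by ring]
        exact h1
    have hS := h_S3 Da (shiftE z ω) (shiftE z ω') (o - z) (e - z) hDa (agree_shift hR L.ag) L.ena
      hcu (o1_of_o1s hDa L.a1) L.a2 _ hO3 (shp z g) (conn_shp hg.1) p1 p2 htouch
      (by rw [T_shp, wt_shp]; exact hlt)
    intro r h1 h2
    have h3 := hS (r - z.1) (by omega) (by omega)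
    unfold shp at h3
    rw [sub_add_cancel] at h3
    have h4 := hR.tub
    have h5 : |g r| ≤ |g r - z.2| + |z.2| := by
      have := abs_sub_abs_le_abs_sub (g r) z.2
      omega
    omega
  refine ⟨hup, ?_, htt, hst⟩
  -- the field `te`
  obtain ⟨⟨k1, k2⟩, -⟩ := h_LAM ω o e hre
  have h1 : InT D D.X (Lam ω o e) := hst _ ⟨k1, by
    have : 14 * D.H * D.f / 1000 = 14 * (D.H * D.f) / 1000 := by ring
    rw [this]
    linarith⟩
  have h2 : InT D (2 * D.X) (Lam ω o e) := by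
    intro r a b
    have := h1 r a b
    have h3 := abs_nonneg (Lam ω o e r)
    omega
  exact c8 o e _ h2 k1 hre k2

end Pool.Agent.H21.NT
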